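import Pool.Agent.Helper45.FG.St

/-!
# Project FG, module PRD: the product of two fusion rings
-/

set_option autoImplicit false

namespace Pool.Agent.Helper33.FG

open Pool.Agent.Helper45.FG

private theorem ne_cases {I J : Type} {p q : I × J} (h : q ≠ p) : q.1 ≠ p.1 ∨ q.2 ≠ p.2 := by
  by_contra hc
  push Not at hc
  exact h (Prod.ext hc.1 hc.2)

private theorem zero_of_or {a b : ℕ} (h : a = 0 ∨ b = 0) : a * b = 0 := by
  rcases h with h | h
  · rw [h, zero_mul]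
  · rw [h, mul_zero]

private theorem sum_nat {I J : Type} [Fintype I] [Fintype J] (f : I → ℕ) (g : J → ℕ) :
    ∑ m : I × J, f m.1 * g m.2 = (∑ m, f m) * ∑ m, g m := by
  rw [Fintype.sum_prod_type, Finset.sum_mul_sum]

private theorem sum_real {I J : Type} [Fintype I] [Fintype J] (f : I → ℝ) (g : J → ℝ) :
    ∑ m : I × J, f m.1 * g m.2 = (∑ m, f m) * ∑ m, g m := by
  rw [Fintype.sum_prod_type, Finset.sum_mul_sum]

/-- PRD. -/
theorem hPRD : StPRD := by
  intro I J _ _ R S d e hd he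
  refine ⟨{ N := fun p q r => R.N p.1 q.1 r.1 * S.N p.2 q.2 r.2
            one := (R.one, S.one)
            dual := fun p => (R.dual p.1, S.dual p.2)
            one_mul_self := ?_
            one_mul_ne := ?_
            mul_one_self := ?_
            mul_one_ne := ?_
            assoc := ?_
            dual_dual := ?_
            dual_mul := ?_
            dual_self := ?_
            dual_ne := ?_ }, fun _ _ _ => rfl, ?_, ?_⟩
  · intro i
    show R.N R.one i.1 i.1 * S.N S.one i.2 i.2 = 1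
    rw [R.one_mul_self, S.one_mul_self]
  · intro i k h
    show R.N R.one i.1 k.1 * S.N S.one i.2 k.2 = 0
    exact zero_of_or ((ne_cases h).imp (R.one_mul_ne _ _) (S.one_mul_ne _ _))
  · intro i
    show R.N i.1 R.one i.1 * S.N i.2 S.one i.2 = 1
    rw [R.mul_one_self, S.mul_one_self]
  · intro i k h
    show R.N i.1 R.one k.1 * S.N i.2 S.one k.2 = 0
    exact zero_of_or ((ne_cases h).imp (R.mul_one_ne _ _) (S.mul_one_ne _ _))
  · intro i j k l
    show ∑ m : I × J, R.N i.1 j.1 m.1 * S.N i.2 j.2 m.2 * (R.N m.1 k.1 l.1 * S.N m.2 k.2 l.2) =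
      ∑ m : I × J, R.N j.1 k.1 m.1 * S.N j.2 k.2 m.2 * (R.N i.1 m.1 l.1 * S.N i.2 m.2 l.2)
    have h1 := sum_nat (fun m => R.N i.1 j.1 m * R.N m k.1 l.1)
      (fun m => S.N i.2 j.2 m * S.N m k.2 l.2)
    have h2 := sum_nat (fun m => R.N j.1 k.1 m * R.N i.1 m l.1)
      (fun m => S.N j.2 k.2 m * S.N i.2 m l.2)
    rw [R.assoc, S.assoc, ← h2] at h1
    calc ∑ m : I × J, R.N i.1 j.1 m.1 * S.N i.2 j.2 m.2 * (R.N m.1 k.1 l.1 * S.N m.2 k.2 l.2)
        = ∑ m : I × J, R.N i.1 j.1 m.1 * R.N m.1 k.1 l.1 * (S.N i.2 j.2 m.2 * S.N m.2 k.2 l.2) :=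
          Finset.sum_congr rfl fun m _ => by ring
      _ = ∑ m : I × J, R.N j.1 k.1 m.1 * R.N i.1 m.1 l.1 * (S.N j.2 k.2 m.2 * S.N i.2 m.2 l.2) :=
          h1
      _ = ∑ m : I × J, R.N j.1 k.1 m.1 * S.N j.2 k.2 m.2 * (R.N i.1 m.1 l.1 * S.N i.2 m.2 l.2) :=
          Finset.sum_congr rfl fun m _ => by ring
  · intro i
    show (R.dual (R.dual i.1), S.dual (S.dual i.2)) = i
    rw [R.dual_dual, S.dual_dual]
  · intro i j k
    show R.N (R.dual j.1) (R.dual i.1) (R.dual k.1) * S.N (S.dual j.2) (S.dual i.2) (S.dual k.2) =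
      R.N i.1 j.1 k.1 * S.N i.2 j.2 k.2
    rw [R.dual_mul, S.dual_mul]
  · intro i
    show R.N i.1 (R.dual i.1) R.one * S.N i.2 (S.dual i.2) S.one = 1
    rw [R.dual_self, S.dual_self]
  · intro i j h
    show R.N i.1 j.1 R.one * S.N i.2 j.2 S.one = 0
    exact zero_of_or ((ne_cases (p := (R.dual i.1, S.dual i.2)) h).imp (R.dual_ne _ _)
      (S.dual_ne _ _))
  · intro i
    exact mul_pos (hd.pos _) (he.pos _)
  · intro i j
    show d i.1 * e i.2 * (d j.1 * e j.2) =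
      ∑ k : I × J, ((R.N i.1 j.1 k.1 * S.N i.2 j.2 k.2 : ℕ) : ℝ) * (d k.1 * e k.2)
    have h1 := sum_real (fun m => (R.N i.1 j.1 m : ℝ) * d m) (fun m => (S.N i.2 j.2 m : ℝ) * e m)
    rw [← hd.mul, ← he.mul] at h1
    calc d i.1 * e i.2 * (d j.1 * e j.2) = d i.1 * d j.1 * (e i.2 * e j.2) := by ring
      _ = ∑ m : I × J, (R.N i.1 j.1 m.1 : ℝ) * d m.1 * ((S.N i.2 j.2 m.2 : ℝ) * e m.2) := h1.symm
      _ = _ := Finset.sum_congr rfl fun m _ => by push_cast; ring

end Pool.Agent.Helper33.FG
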